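import Pool.Agent.Helper8.UN.MAIN
import Pool.Agent.Helper5.FV.Stmts

/-! # Row MA2 of the sheet FV: assembly (helper62, copy of helper8's MAIN) -/

set_option autoImplicit false

open Finset Pool.Agent.Helper8.UN

namespace Pool.Agent.Helper5.FV

open Pool.Agent.Helper89

theorem st_MA2 (hLNK : UB.ST_LNK) (hINIT : UB.ST_INIT) (hUNI : UB.ST_UNI) (hLNA : ST_LNA)
    (hSTE : ST_STE) (hBON : ST_BON) (hWM1 : ST_WM1) (hWMC : ST_WMC) (hDCE : ST_DCE)
    (hININ : ST_ININ) : ST_MA2 := by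
  obtain ⟨n1, h1⟩ := hSTE
  obtain ⟨n2, h2⟩ := hWM1
  obtain ⟨n3, h3⟩ := hWMC
  obtain ⟨n4, h4⟩ := hDCE
  obtain ⟨n6, h6⟩ := hININ
  -- size of x
  have hx0 : ∃ n7 : ℕ, ∀ n ≥ n7, 100 ≤ (n : ℝ) / Real.log n := by
    have h := (Real.isLittleO_log_id_atTop).def (show (0 : ℝ) < 1 / 100 by norm_num)
    have h' := (tendsto_natCast_atTop_atTop (R := ℝ)).eventually h
    obtain ⟨N, hN⟩ := Filter.eventually_atTop.1 (h'.and (Filter.eventually_ge_atTop 2))
    refine ⟨N, fun n hn => ?_⟩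
    obtain ⟨a1, a2⟩ := hN n hn
    have hn2 : (2 : ℝ) ≤ n := by exact_mod_cast a2
    have hl : 0 < Real.log n := Real.log_pos (by linarith)
    simp only [id] at a1
    rw [Real.norm_of_nonneg hl.le, Real.norm_of_nonneg (by linarith)] at a1
    rw [le_div_iff₀ hl]
    linarith
  obtain ⟨n7, h7⟩ := hx0
  refine ⟨max 3 (max n1 (max n2 (max n3 (max n4 (max n6 n7))))), ?_⟩
  intro n hn E W0 hW0 hE
  simp only [ge_iff_le, max_le_iff] at hn
  obtain ⟨hn0, hn1, hn2, hn3, hn4, hn6, hn7⟩ := hn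
  by_cases hTwo : Two E
  swap
  · unfold Two at hTwo
    push Not at hTwo
    obtain ⟨e, he, hc⟩ := hTwo
    exact main_triv _ (main_small (by omega) E e he (by omega))
  have hx := h7 n hn7
  set x : ℝ := (n : ℝ) / Real.log n with hxdef
  have hnR : (3 : ℝ) ≤ n := by exact_mod_cast hn0
  have hL : 0 < Real.log n := Real.log_pos (by linarith)
  set r : ℕ := ⌈2000 * Real.log n⌉₊ with hr
  set D0 : ℕ := ⌊1 / 100000 * x⌋₊ with hD0
  have hReg : RegW D0 r E W0 := by
    refine ⟨hTwo, ?_, ?_, Nat.le_ceil _, hW0⟩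
    · intro v hv
      have hsub : E.filter (fun e => v ∈ e ∧ e.card < r) ⊆
          E.filter (fun e => v ∈ e ∧ (e.card : ℝ) < 2000 * Real.log n) := by
        intro e he
        rw [Finset.mem_filter] at he ⊢
        exact ⟨he.1, he.2.1, Nat.lt_ceil.1 he.2.2⟩
      refine (Finset.card_le_card hsub).trans ?_
      exact Nat.le_floor (hE v hv)
    · exact Nat.floor_le (by positivity)
  have hWin := h1 n hn1 D0 r E W0 hReg
  set p : ℕ → ℝ := fun k => (PP E univ k : ℝ) with hp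
  set a : ℕ → ℝ := fun k => (AA E univ k : ℝ) with ha
  have hBon : ∀ m I : ℕ,
      |a m - ∑ i ∈ Finset.range I, (-1) ^ i * ((m.choose i : ℝ) * p (m - i))| ≤
      (m.choose I : ℝ) * p (m - I) := fun m I => hBON n m I E univ hTwo
  have hbc : ∀ m, UB.bc E m * m.factorial = AA E univ m := fun m => by
    rw [hLNK n E m, hLNA n m E univ hTwo]
  set M₁ : ℕ := ⌊69 / 100 * x⌋₊ with hM1
  set M₃ : ℕ := ⌊120 / 100 * x⌋₊ with hM3
  have hM13 : M₁ ≤ M₃ := Nat.floor_le_floor (by linarith)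
  have hM1lt : ∀ m, M₁ < m → 69 / 100 * x < m := fun m hm => Nat.lt_of_floor_lt hm
  have hM3le : ∀ m, m ≤ M₃ → (m : ℝ) ≤ 120 / 100 * x := fun m hm => by
    have : (m : ℝ) ≤ (M₃ : ℝ) := by exact_mod_cast hm
    exact this.trans (Nat.floor_le (by positivity))
  obtain ⟨M₂, c1, c2, c3, c4⟩ := main_cut (fun m => lam p (m + 1) ≤ 11 / 10) M₁ M₃ hM13 (by
    intro m a1 a2 a3 a4
    apply a3
    have b1 : 68 / 100 * x ≤ m := by
      have := hM1lt m a1
      linarith
    have b2 : (m : ℝ) ≤ 120 / 100 * x := hM3le m (by omega)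
    have b3 := h2 n hn2 p hWin m (m + 1) b1 b2 (by
      push_cast
      have : 1 ≤ Real.log n := by
        rw [Real.le_log_iff_exp_le (by linarith)]
        linarith [Real.exp_one_lt_d9]
      linarith) (by push_cast; linarith)
    obtain ⟨d1, d2, d3, -⟩ := b3
    have d4 : (1 : ℝ) ≤ Real.exp (998 / 1000 * (n / (m : ℝ) ^ 2)) := Real.one_le_exp (by positivity)
    have d5 : lam p (m + 1) ≤ lam p (m + 1) * Real.exp (998 / 1000 * (n / (m : ℝ) ^ 2)) := by
      nlinarith
    exact d5.trans (d3.trans a4))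
  -- steps in terms of AA
  have hup : ∀ m, (m + 1) * AA E univ m ≤ AA E univ (m + 1) → UB.bc E m ≤ UB.bc E (m + 1) := by
    intro m hm
    rw [← hbc m, ← hbc (m + 1), Nat.factorial_succ] at hm
    have hf : 0 < (m + 1) * m.factorial := by positivity
    refine Nat.le_of_mul_le_mul_right (c := (m + 1) * m.factorial) ?_ hf
    calc UB.bc E m * ((m + 1) * m.factorial) = (m + 1) * (UB.bc E m * m.factorial) := by ring
      _ ≤ UB.bc E (m + 1) * ((m + 1) * m.factorial) := hm
  have hdn : ∀ m, AA E univ (m + 1) ≤ (m + 1) * AA E univ m → UB.bc E (m + 1) ≤ UB.bc E m := by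
    intro m hm
    rw [← hbc m, ← hbc (m + 1), Nat.factorial_succ] at hm
    have hf : 0 < (m + 1) * m.factorial := by positivity
    refine Nat.le_of_mul_le_mul_right (c := (m + 1) * m.factorial) ?_ hf
    calc UB.bc E (m + 1) * ((m + 1) * m.factorial) ≤ (m + 1) * (UB.bc E m * m.factorial) := hm
      _ = UB.bc E m * ((m + 1) * m.factorial) := by ring
  refine hUNI n M₁ M₂ (UB.bc E) c1 ?_ ?_ ?_
  · intro m a1 a2
    apply hup
    have b1 : (m : ℝ) ≤ 69 / 100 * x := by
      have : (m : ℝ) ≤ (M₁ : ℝ) := by exact_mod_cast a2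
      exact this.trans (Nat.floor_le (by positivity))
    have b2 := hINIT n m E a1 (h6 n hn6 m b1)
    rwa [← hLNA n m E univ hTwo, ← hLNA n (m + 1) E univ hTwo] at b2
  · intro m a1 a2
    have b1 : 68 / 100 * x ≤ m := by
      have := hM1lt m a1
      linarith
    have b2 : (m : ℝ) ≤ 120 / 100 * x := hM3le m (by omega)
    obtain ⟨d1, d2⟩ := h3 n hn3 p a hWin hBon m b1 b2 (c3 m a1 a2)
    have hm1 : 1 ≤ m := by omega
    have e1 : 0 < AA E univ m := by
      have : (0 : ℝ) < (AA E univ m : ℝ) := d1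
      exact_mod_cast this
    have e2 : m * (AA E univ (m - 1) * AA E univ (m + 1)) ≤ (m + 1) * AA E univ m ^ 2 := by
      have : (m : ℝ) * ((AA E univ (m - 1) : ℝ) * (AA E univ (m + 1) : ℝ)) ≤
        (m + 1) * (AA E univ m : ℝ) ^ 2 := d2
      exact_mod_cast this
    refine ⟨?_, ?_⟩
    · rw [← hbc m] at e1
      exact Nat.pos_of_mul_pos_right e1
    · obtain ⟨m', rfl⟩ : ∃ m', m = m' + 1 := ⟨m - 1, by omega⟩
      rw [Nat.add_sub_cancel] at e2 ⊢
      rw [← hbc m', ← hbc (m' + 1), ← hbc (m' + 1 + 1), Nat.factorial_succ (m' + 1),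
        Nat.factorial_succ m'] at e2
      have hf : 0 < (m' + 1) * (m' + 1 + 1) * (m' + 1) * (m'.factorial * m'.factorial) := by
        positivity
      refine Nat.le_of_mul_le_mul_right
        (c := (m' + 1) * (m' + 1 + 1) * (m' + 1) * (m'.factorial * m'.factorial)) ?_ hf
      calc UB.bc E m' * UB.bc E (m' + 1 + 1) *
            ((m' + 1) * (m' + 1 + 1) * (m' + 1) * (m'.factorial * m'.factorial))
          = (m' + 1) * (UB.bc E m' * m'.factorial *
            (UB.bc E (m' + 1 + 1) * ((m' + 1 + 1) * ((m' + 1) * m'.factorial)))) := by ring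
        _ ≤ (m' + 1 + 1) * (UB.bc E (m' + 1) * ((m' + 1) * m'.factorial)) ^ 2 := e2
        _ = UB.bc E (m' + 1) ^ 2 *
            ((m' + 1) * (m' + 1 + 1) * (m' + 1) * (m'.factorial * m'.factorial)) := by ring
  · intro m a1 a2
    apply hdn
    rcases Nat.lt_or_ge M₃ m with c | c
    · have b1 : 120 / 100 * x < m := Nat.lt_of_floor_lt c
      exact h4 n hn4 D0 r m E W0 hReg (Or.inl (by linarith))
    · have b1 := hM1lt m (by omega)
      have b2 : (m : ℝ) ≤ 120 / 100 * x := hM3le m c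
      have b3 := c4 m a1 c
      obtain ⟨-, -, b4, -, -⟩ := hWin m (by linarith) (by linarith)
      refine h4 n hn4 D0 r m E W0 hReg (Or.inr ⟨by linarith, by linarith, ?_⟩)
      have b5 : 11 / 10 < lam p (m + 1) := not_le.1 b3
      unfold lam at b5
      have b4' : (0 : ℝ) < p (m + 1) := b4
      rw [lt_div_iff₀ b4'] at b5
      have b6 := b5.le
      rw [Nat.add_sub_cancel] at b6
      have b7 : (11 / 10 : ℝ) * (PP E univ (m + 1) : ℝ) ≤
        ((m + 1 : ℕ) : ℝ) * (PP E univ m : ℝ) := b6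
      push_cast at b7
      exact b7

end Pool.Agent.Helper5.FV
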